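import Pool.Agent.H8.PU.Targets
import Pool.Agent.H8.PL.Q2

/-!
# A pendant vertex is removed from a certified graph
-/

set_option autoImplicit false

namespace Pool.Agent.H8.PU

open Pool.Agent.H8.PL

section
variable {n : ℕ} {A A' : ℕ → ℕ → Prop} {u v : ℕ}

theorem edges_succ (hu : u < n) (hv : v < n) (huv : u ≠ v) (hs : ∀ a b, A a b → A b a)
    (hiso : ∀ b, ¬ A u b)
    (hA : ∀ a b, A' a b ↔ A a b ∨ (a = u ∧ b = v) ∨ (a = v ∧ b = u)) :
    {p : ℕ × ℕ | p.1 < p.2 ∧ p.2 < n ∧ A' p.1 p.2}.ncard =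
      {p : ℕ × ℕ | p.1 < p.2 ∧ p.2 < n ∧ A p.1 p.2}.ncard + 1 := by
  have hfin : {p : ℕ × ℕ | p.1 < p.2 ∧ p.2 < n ∧ A p.1 p.2}.Finite := by
    refine ((Set.finite_lt_nat n).prod (Set.finite_lt_nat n)).subset ?_
    rintro ⟨a, b⟩ ⟨h1, h2, -⟩
    exact ⟨lt_trans h1 h2, h2⟩
  have hvu : ¬ A v u := fun h => hiso v (hs _ _ h)
  rcases Nat.lt_or_ge u v with h | h
  · have e : {p : ℕ × ℕ | p.1 < p.2 ∧ p.2 < n ∧ A' p.1 p.2} =
        insert (u, v) {p : ℕ × ℕ | p.1 < p.2 ∧ p.2 < n ∧ A p.1 p.2} := by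
      ext ⟨a, b⟩
      simp only [Set.mem_ofPred_eq, Set.mem_insert_iff, Prod.mk.injEq, hA]
      constructor
      · rintro ⟨h1, h2, h3 | h3 | ⟨rfl, rfl⟩⟩
        · exact Or.inr ⟨h1, h2, h3⟩
        · exact Or.inl h3
        · omega
      · rintro (⟨rfl, rfl⟩ | ⟨h1, h2, h3⟩)
        · exact ⟨h, hv, Or.inr (Or.inl ⟨rfl, rfl⟩)⟩
        · exact ⟨h1, h2, Or.inl h3⟩
    rw [e, Set.ncard_insert_of_notMem (fun h3 => hiso _ h3.2.2) hfin]
  · have e : {p : ℕ × ℕ | p.1 < p.2 ∧ p.2 < n ∧ A' p.1 p.2} =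
        insert (v, u) {p : ℕ × ℕ | p.1 < p.2 ∧ p.2 < n ∧ A p.1 p.2} := by
      ext ⟨a, b⟩
      simp only [Set.mem_ofPred_eq, Set.mem_insert_iff, Prod.mk.injEq, hA]
      constructor
      · rintro ⟨h1, h2, h3 | ⟨rfl, rfl⟩ | h3⟩
        · exact Or.inr ⟨h1, h2, h3⟩
        · omega
        · exact Or.inl h3
      · rintro (⟨rfl, rfl⟩ | ⟨h1, h2, h3⟩)
        · exact ⟨by omega, hu, Or.inr (Or.inr ⟨rfl, rfl⟩)⟩
        · exact ⟨h1, h2, Or.inl h3⟩
    rw [e, Set.ncard_insert_of_notMem (fun h3 => hvu h3.2.2) hfin]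

theorem pf_a2_one (hu : u < n) (hv : v < n) (huv : u ≠ v) (hs : ∀ a b, A a b → A b a)
    (hiso : ∀ b, ¬ A u b)
    (hA : ∀ a b, A' a b ↔ A a b ∨ (a = u ∧ b = v) ∨ (a = v ∧ b = u))
    {pos fid : ℕ → ℕ → ℕ} {rt : ℕ → Prop} {rk : ℕ → ℕ} (h : PlC n A' pos fid rt rk)
    {b0 : ℕ} (hb0 : b0 < n) (hvb : A v b0) :
    ∃ (pos fid : ℕ → ℕ → ℕ) (rt : ℕ → Prop) (rk : ℕ → ℕ), PlC n A pos fid rt rk := by
  have hvu : ¬ A v u := fun h => hiso v (hs _ _ h)
  have hau : ∀ a, ¬ A a u := fun a h => hiso a (hs _ _ h)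
  have hA1 : ∀ a b, A a b → A' a b := fun a b h => (hA a b).2 (Or.inl h)
  have hA2 : ∀ a b, a ≠ v → a ≠ u → A' a b → A a b := by
    intro a b h1 h2 h3
    rcases (hA a b).1 h3 with h4 | h4 | h4
    · exact h4
    · exact absurd h4.1 h2
    · exact absurd h4.1 h1
  have hAu : ∀ b, A' u b → b = v := by
    intro b h3
    rcases (hA u b).1 h3 with h4 | h4 | h4
    · exact absurd h4 (hiso b)
    · exact h4.2
    · exact absurd h4.1 huv
  have hAv : ∀ b, A' v b → b ≠ u → A v b := by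
    intro b h3 h5
    rcases (hA v b).1 h3 with h4 | h4 | h4
    · exact h4
    · exact absurd h4.1.symm huv
    · exact absurd h4.2 h5
  have hvu' : A' v u := (hA v u).2 (Or.inr (Or.inr ⟨rfl, rfl⟩))
  have huv' : A' u v := (hA u v).2 (Or.inr (Or.inl ⟨rfl, rfl⟩))
  set p := pos v u with hp
  have hne : ∀ b < n, A v b → pos v b ≠ p := by
    intro b hb hab he
    have := h.pi v hv b hb u hu (hA1 _ _ hab) hvu' he
    exact hvu (this ▸ hab)
  have huz : pos u v = 0 := by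
    by_contra h1
    obtain ⟨b', hb', h2, h3⟩ := h.ps u hu v hv huv' h1
    rw [hAu b' h2] at h3
    omega
  have hfu : fid v u = fid u v := by
    refine h.fi u hu v hv v hv ⟨huv', huv', Or.inr ⟨huz, fun c' hc' h1 => ?_⟩⟩
    rw [hAu c' h1]
  set q : ℕ → ℕ → ℕ := fun a b => if a = v ∧ p < pos v b then pos v b - 1 else pos a b with hq
  have hq1 : ∀ a b, a ≠ v → q a b = pos a b := fun a b h1 => if_neg fun h2 => h1 h2.1
  have hq2 : ∀ b, p < pos v b → q v b = pos v b - 1 := fun b h1 => if_pos ⟨rfl, h1⟩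
  have hq3 : ∀ b, ¬ p < pos v b → q v b = pos v b := fun b h1 => if_neg fun h2 => h1 h2.2
  refine ⟨q, fid, fun a => rt a ∨ (a = v ∧ rt u), rk, ?_, ?_, ?_, ?_, ?_⟩
  · intro a ha b hb b' hb' hab hab' he
    by_cases hav : a = v
    · subst hav
      have h1 := hne b hb hab
      have h2 := hne b' hb' hab'
      refine h.pi a ha b hb b' hb' (hA1 _ _ hab) (hA1 _ _ hab') ?_
      by_cases h3 : p < pos a b <;> by_cases h4 : p < pos a b'
      · rw [hq2 _ h3, hq2 _ h4] at he; omega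
      · rw [hq2 _ h3, hq3 _ h4] at he; omega
      · rw [hq3 _ h3, hq2 _ h4] at he; omega
      · rw [hq3 _ h3, hq3 _ h4] at he; omega
    · rw [hq1 _ _ hav, hq1 _ _ hav] at he
      exact h.pi a ha b hb b' hb' (hA1 _ _ hab) (hA1 _ _ hab') he
  · intro a ha b hb hab hne0
    by_cases hav : a = v
    · subst hav
      have h1 := hne b hb hab
      by_cases h3 : p < pos a b
      · rw [hq2 _ h3] at hne0 ⊢
        obtain ⟨b1, hb1, h4, h5⟩ := h.ps a ha b hb (hA1 _ _ hab) (by omega)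
        by_cases h6 : b1 = u
        · subst h6
          obtain ⟨b2, hb2, h7, h8⟩ := h.ps a ha b1 hb1 hvu' (by omega)
          have h9 : b2 ≠ b1 := fun h9 => by rw [h9] at h8; omega
          refine ⟨b2, hb2, hAv _ h7 h9, ?_⟩
          rw [hq3 _ (by omega)]
          omega
        · have h7 := hne b1 hb1 (hAv _ h4 h6)
          refine ⟨b1, hb1, hAv _ h4 h6, ?_⟩
          rw [hq2 _ (by omega)]
          omega
      · rw [hq3 _ h3] at hne0 ⊢
        obtain ⟨b1, hb1, h4, h5⟩ := h.ps a ha b hb (hA1 _ _ hab) (by omega)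
        have h6 : b1 ≠ u := fun h6 => by rw [h6] at h5; omega
        refine ⟨b1, hb1, hAv _ h4 h6, ?_⟩
        rw [hq3 _ (by omega)]
        omega
    · have hau' : a ≠ u := fun h1 => hiso b (h1 ▸ hab)
      rw [hq1 _ _ hav] at hne0 ⊢
      obtain ⟨b1, hb1, h4, h5⟩ := h.ps a ha b hb (hA1 _ _ hab) hne0
      exact ⟨b1, hb1, hA2 _ _ hav hau' h4, by rw [hq1 _ _ hav]; exact h5⟩
  · rintro a ha b hb c hc ⟨hab, hac, h1⟩
    by_cases hav : a = v
    · subst hav
      have nb := hne b hb hab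
      have nc := hne c hc hac
      have chain : Nx n A' pos a b u → Nx n A' pos a u c → fid b a = fid a c := by
        intro k1 k2
        rw [h.fi a ha b hb u hu k1, hfu, h.fi a ha u hu c hc k2]
      have direct : Nx n A' pos a b c → fid b a = fid a c := h.fi a ha b hb c hc
      have habA := hA1 _ _ hab
      have hacA := hA1 _ _ hac
      rcases h1 with h1 | ⟨h1, h2⟩
      · by_cases h3 : p < pos a b <;> by_cases h4 : p < pos a c
        · rw [hq2 _ h3, hq2 _ h4] at h1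
          exact direct ⟨habA, hacA, Or.inl (by omega)⟩
        · rw [hq2 _ h3, hq3 _ h4] at h1
          omega
        · rw [hq3 _ h3, hq2 _ h4] at h1
          exact chain ⟨habA, hvu', Or.inl (by omega)⟩ ⟨hvu', hacA, Or.inl (by omega)⟩
        · rw [hq3 _ h3, hq3 _ h4] at h1
          exact direct ⟨habA, hacA, Or.inl (by omega)⟩
      · by_cases h3 : p < pos a b
        · have hmax : ∀ c' < n, A' a c' → pos a c' ≤ pos a b := by
            intro c' hc' h5
            by_cases h6 : c' = u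
            · rw [h6]; omega
            · have h7 := h2 c' hc' (hAv _ h5 h6)
              rw [hq2 _ h3] at h7
              by_cases h8 : p < pos a c'
              · rw [hq2 _ h8] at h7; omega
              · omega
          by_cases h4 : p < pos a c
          · rw [hq2 _ h4] at h1
            exact chain ⟨habA, hvu', Or.inr ⟨by omega, hmax⟩⟩ ⟨hvu', hacA, Or.inl (by omega)⟩
          · rw [hq3 _ h4] at h1
            exact direct ⟨habA, hacA, Or.inr ⟨h1, hmax⟩⟩
        · have h5 : ∀ c' < n, A a c' → pos a c' ≤ pos a b := by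
            intro c' hc' h5
            have h7 := h2 c' hc' h5
            have h8 := hne c' hc' h5
            rw [hq3 _ h3] at h7
            by_cases h9 : p < pos a c'
            · rw [hq2 _ h9] at h7; omega
            · rw [hq3 _ h9] at h7; exact h7
          have h6 : p = pos a b + 1 := by
            obtain ⟨b1, hb1, h7, h8⟩ := h.ps a ha u hu hvu' (by omega)
            have h9 : b1 ≠ u := fun h9 => by rw [h9] at h8; omega
            have := h5 b1 hb1 (hAv _ h7 h9)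
            omega
          have h7 := h5 c hc hac
          rw [hq3 _ (by omega)] at h1
          refine chain ⟨habA, hvu', Or.inl h6⟩ ⟨hvu', hacA, Or.inr ⟨h1, fun c' hc' h8 => ?_⟩⟩
          by_cases h9 : c' = u
          · rw [h9]
          · have := h5 c' hc' (hAv _ h8 h9)
            omega
    · have hau' : a ≠ u := fun h1 => hiso b (h1 ▸ hab)
      refine h.fi a ha b hb c hc ⟨hA1 _ _ hab, hA1 _ _ hac, ?_⟩
      rw [hq1 _ _ hav, hq1 _ _ hav] at h1
      rcases h1 with h1 | ⟨h1, h2⟩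
      · exact Or.inl h1
      · refine Or.inr ⟨h1, fun c' hc' h3 => ?_⟩
        have := h2 c' hc' (hA2 _ _ hav hau' h3)
        rwa [hq1 _ _ hav] at this
  · rintro a ha ⟨b, hb, hab⟩
    rcases h.ro a ha ⟨b, hb, hA1 _ _ hab⟩ with h1 | ⟨b', hb', h1, h2⟩
    · exact Or.inl (Or.inl h1)
    · rcases (hA a b').1 h1 with h3 | ⟨rfl, rfl⟩ | ⟨rfl, rfl⟩
      · exact Or.inr ⟨b', hb', h3, h2⟩
      · exact absurd hab (hiso b)
      · rcases h.ro b' hb' ⟨a, ha, huv'⟩ with h4 | ⟨b2, hb2, h4, h5⟩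
        · exact Or.inl (Or.inr ⟨rfl, h4⟩)
        · rw [hAu b2 h4] at h5
          omega
  · have e1 := edges_succ (A' := A') hu hv huv hs hiso hA
    have e2 : {a | a < n ∧ ∃ b < n, A' a b}.ncard = {a | a < n ∧ ∃ b < n, A a b}.ncard + 1 := by
      have e : {a | a < n ∧ ∃ b < n, A' a b} = insert u {a | a < n ∧ ∃ b < n, A a b} := by
        ext a
        simp only [Set.mem_ofPred_eq, Set.mem_insert_iff]
        constructor
        · rintro ⟨ha, b, hb, hab⟩
          rcases (hA a b).1 hab with h3 | ⟨rfl, rfl⟩ | ⟨rfl, rfl⟩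
          · exact Or.inr ⟨ha, b, hb, h3⟩
          · exact Or.inl rfl
          · exact Or.inr ⟨ha, b0, hb0, hvb⟩
        · rintro (rfl | ⟨ha, b, hb, hab⟩)
          · exact ⟨hu, v, hv, huv'⟩
          · exact ⟨ha, b, hb, hA1 _ _ hab⟩
      rw [e, Set.ncard_insert_of_notMem (fun h3 => by
        obtain ⟨_, b, _, h4⟩ := h3
        exact hiso b h4) ((Set.finite_lt_nat n).subset fun a ha => ha.1)]
    have e3 : {a | a < n ∧ (rt a ∨ (a = v ∧ rt u)) ∧ ∃ b < n, A a b}.ncard ≤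
        {a | a < n ∧ rt a ∧ ∃ b < n, A' a b}.ncard := by
      have hfin : {a | a < n ∧ rt a ∧ ∃ b < n, A' a b}.Finite :=
        (Set.finite_lt_nat n).subset fun a ha => ha.1
      by_cases hr : rt u
      · have hsub : {a | a < n ∧ (rt a ∨ (a = v ∧ rt u)) ∧ ∃ b < n, A a b} ⊆
            insert v ({a | a < n ∧ rt a ∧ ∃ b < n, A' a b} \ {u}) := by
          rintro a ⟨ha, h1, b, hb, hab⟩
          by_cases hav : a = v
          · exact Or.inl hav
          · refine Or.inr ⟨⟨ha, ?_, b, hb, hA1 _ _ hab⟩, fun h2 => ?_⟩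
            · rcases h1 with h1 | h1
              · exact h1
              · exact absurd h1.1 hav
            · rw [Set.mem_singleton_iff] at h2
              exact hiso b (h2 ▸ hab)
        have k1 := Set.ncard_le_ncard hsub ((hfin.subset Set.diff_subset).insert v)
        have k2 := Set.ncard_insert_le v ({a | a < n ∧ rt a ∧ ∃ b < n, A' a b} \ {u})
        have k3 := Set.ncard_diff_singleton_add_one
          (show u ∈ {a | a < n ∧ rt a ∧ ∃ b < n, A' a b} from ⟨hu, hr, v, hv, huv'⟩) hfin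
        omega
      · refine Set.ncard_le_ncard ?_ hfin
        rintro a ⟨ha, h1, b, hb, hab⟩
        refine ⟨ha, ?_, b, hb, hA1 _ _ hab⟩
        rcases h1 with h1 | h1
        · exact h1
        · exact absurd h1.2 hr
    have e4 : {k | ∃ a < n, ∃ b < n, A' a b ∧ fid a b = k}.ncard ≤
        {k | ∃ a < n, ∃ b < n, A a b ∧ fid a b = k}.ncard := by
      obtain ⟨c, hc, hcN⟩ := nx_exists h hv hu hvu'
      have hcu : c ≠ u := by
        rintro rfl
        obtain ⟨_, _, h1 | ⟨h1, h2⟩⟩ := hcN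
        · omega
        · have h3 := h2 b0 hb0 (hA1 _ _ hvb)
          exact hne b0 hb0 hvb (by omega)
      have hvc : A v c := hAv _ hcN.2.1 hcu
      have hfc : fid u v = fid v c := h.fi v hv u hu c hc hcN
      refine Set.ncard_le_ncard ?_ ?_
      · rintro k ⟨a, ha, b, hb, hab, rfl⟩
        rcases (hA a b).1 hab with h3 | ⟨rfl, rfl⟩ | ⟨rfl, rfl⟩
        · exact ⟨a, ha, b, hb, h3, rfl⟩
        · exact ⟨b, hb, c, hc, hvc, hfc.symm⟩
        · exact ⟨a, ha, c, hc, hvc, by rw [hfu, hfc]⟩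
      · refine (((Set.finite_lt_nat n).prod (Set.finite_lt_nat n)).image
          fun p : ℕ × ℕ => fid p.1 p.2).subset ?_
        rintro k ⟨a, ha, b, hb, hab, rfl⟩
        exact ⟨(a, b), ⟨ha, hb⟩, rfl⟩
    have := h.co
    omega

theorem pf_a2_two (hu : u < n) (hv : v < n) (huv : u ≠ v) (hs : ∀ a b, A a b → A b a)
    (hiso : ∀ b, ¬ A u b)
    (hA : ∀ a b, A' a b ↔ A a b ∨ (a = u ∧ b = v) ∨ (a = v ∧ b = u))
    {pos fid : ℕ → ℕ → ℕ} {rt : ℕ → Prop} {rk : ℕ → ℕ} (h : PlC n A' pos fid rt rk)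
    (hvb : ∀ b < n, ¬ A v b) :
    ∃ (pos fid : ℕ → ℕ → ℕ) (rt : ℕ → Prop) (rk : ℕ → ℕ), PlC n A pos fid rt rk := by
  have hau : ∀ a, ¬ A a u := fun a h => hiso a (hs _ _ h)
  have hA1 : ∀ a b, A a b → A' a b := fun a b h => (hA a b).2 (Or.inl h)
  have hA2 : ∀ a b, a ≠ v → a ≠ u → A' a b → A a b := by
    intro a b h1 h2 h3
    rcases (hA a b).1 h3 with h4 | h4 | h4
    · exact h4
    · exact absurd h4.1 h2
    · exact absurd h4.1 h1
  have hvu' : A' v u := (hA v u).2 (Or.inr (Or.inr ⟨rfl, rfl⟩))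
  have huv' : A' u v := (hA u v).2 (Or.inr (Or.inl ⟨rfl, rfl⟩))
  have hn : ∀ a b, b < n → A a b → a ≠ v ∧ a ≠ u := fun a b hb hab =>
    ⟨fun h1 => hvb b hb (h1 ▸ hab), fun h1 => hiso b (h1 ▸ hab)⟩
  refine ⟨pos, fid, rt, rk, ?_, ?_, ?_, ?_, ?_⟩
  · exact fun a ha b hb b' hb' hab hab' he =>
      h.pi a ha b hb b' hb' (hA1 _ _ hab) (hA1 _ _ hab') he
  · intro a ha b hb hab h0
    obtain ⟨b', hb', h1, h2⟩ := h.ps a ha b hb (hA1 _ _ hab) h0
    obtain ⟨h3, h4⟩ := hn a b hb hab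
    exact ⟨b', hb', hA2 _ _ h3 h4 h1, h2⟩
  · rintro a ha b hb c hc ⟨hab, hac, h1⟩
    obtain ⟨h3, h4⟩ := hn a b hb hab
    refine h.fi a ha b hb c hc ⟨hA1 _ _ hab, hA1 _ _ hac, ?_⟩
    rcases h1 with h1 | ⟨h1, h2⟩
    · exact Or.inl h1
    · exact Or.inr ⟨h1, fun c' hc' h5 => h2 c' hc' (hA2 _ _ h3 h4 h5)⟩
  · rintro a ha ⟨b, hb, hab⟩
    obtain ⟨h3, h4⟩ := hn a b hb hab
    rcases h.ro a ha ⟨b, hb, hA1 _ _ hab⟩ with h1 | ⟨b', hb', h1, h2⟩
    · exact Or.inl h1
    · exact Or.inr ⟨b', hb', hA2 _ _ h3 h4 h1, h2⟩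
  · have e1 := edges_succ (A' := A') hu hv huv hs hiso hA
    have hfV : {a | a < n ∧ ∃ b < n, A a b}.Finite :=
      (Set.finite_lt_nat n).subset fun a ha => ha.1
    have e2 : {a | a < n ∧ ∃ b < n, A' a b}.ncard ≤ {a | a < n ∧ ∃ b < n, A a b}.ncard + 2 := by
      have e : {a | a < n ∧ ∃ b < n, A' a b} ⊆
          insert u (insert v {a | a < n ∧ ∃ b < n, A a b}) := by
        rintro a ⟨ha, b, hb, hab⟩
        rcases (hA a b).1 hab with h3 | ⟨rfl, rfl⟩ | ⟨rfl, rfl⟩
        · exact Or.inr (Or.inr ⟨ha, b, hb, h3⟩)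
        · exact Or.inl rfl
        · exact Or.inr (Or.inl rfl)
      have k1 := Set.ncard_le_ncard e ((hfV.insert v).insert u)
      have k2 := Set.ncard_insert_le u (insert v {a | a < n ∧ ∃ b < n, A a b})
      have k3 := Set.ncard_insert_le v {a | a < n ∧ ∃ b < n, A a b}
      omega
    have hfR : {a | a < n ∧ rt a ∧ ∃ b < n, A' a b}.Finite :=
      (Set.finite_lt_nat n).subset fun a ha => ha.1
    have e3 : {a | a < n ∧ rt a ∧ ∃ b < n, A a b}.ncard + 1 ≤
        {a | a < n ∧ rt a ∧ ∃ b < n, A' a b}.ncard := by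
      have hw : ∃ w, (w = u ∨ w = v) ∧ w ∈ {a | a < n ∧ rt a ∧ ∃ b < n, A' a b} := by
        rcases h.ro u hu ⟨v, hv, huv'⟩ with h1 | ⟨b1, hb1, h1, h2⟩
        · exact ⟨u, Or.inl rfl, hu, h1, v, hv, huv'⟩
        · rcases h.ro v hv ⟨u, hu, hvu'⟩ with h3 | ⟨b2, hb2, h3, h4⟩
          · exact ⟨v, Or.inr rfl, hv, h3, u, hu, hvu'⟩
          · have h5 : b1 = v := by
              rcases (hA u b1).1 h1 with h6 | h6 | h6
              · exact absurd h6 (hiso b1)
              · exact h6.2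
              · exact absurd h6.1 huv
            have h7 : b2 = u := by
              rcases (hA v b2).1 h3 with h6 | h6 | h6
              · exact absurd h6 (hvb b2 hb2)
              · exact absurd h6.1.symm huv
              · exact h6.2
            rw [h5] at h2
            rw [h7] at h4
            omega
      obtain ⟨w, hw1, hw2⟩ := hw
      have k3 := Set.ncard_diff_singleton_add_one hw2 hfR
      rw [← k3]
      refine Nat.succ_le_succ (Set.ncard_le_ncard ?_ (hfR.subset Set.diff_subset))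
      rintro a ⟨ha, h1, b, hb, hab⟩
      obtain ⟨h3, h4⟩ := hn a b hb hab
      refine ⟨⟨ha, h1, b, hb, hA1 _ _ hab⟩, fun h5 => ?_⟩
      rw [Set.mem_singleton_iff] at h5
      rcases hw1 with h6 | h6
      · exact h4 (h5.trans h6)
      · exact h3 (h5.trans h6)
    have e4 : {k | ∃ a < n, ∃ b < n, A' a b ∧ fid a b = k}.ncard ≤
        {k | ∃ a < n, ∃ b < n, A a b ∧ fid a b = k}.ncard + 1 := by
      have huz : pos u v = 0 := by
        by_contra h1
        obtain ⟨b', hb', h2, h3⟩ := h.ps u hu v hv huv' h1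
        rcases (hA u b').1 h2 with h6 | h6 | h6
        · exact hiso b' h6
        · rw [h6.2] at h3; omega
        · exact huv h6.1
      have hfu : fid v u = fid u v := by
        refine h.fi u hu v hv v hv ⟨huv', huv', Or.inr ⟨huz, fun c' hc' h1 => ?_⟩⟩
        rcases (hA u c').1 h1 with h6 | h6 | h6
        · exact absurd h6 (hiso c')
        · rw [h6.2]
        · exact absurd h6.1 huv
      have hfF : {k | ∃ a < n, ∃ b < n, A a b ∧ fid a b = k}.Finite := by
        refine (((Set.finite_lt_nat n).prod (Set.finite_lt_nat n)).image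
          fun p : ℕ × ℕ => fid p.1 p.2).subset ?_
        rintro k ⟨a, ha, b, hb, hab, rfl⟩
        exact ⟨(a, b), ⟨ha, hb⟩, rfl⟩
      have hsub : {k | ∃ a < n, ∃ b < n, A' a b ∧ fid a b = k} ⊆
          insert (fid u v) {k | ∃ a < n, ∃ b < n, A a b ∧ fid a b = k} := by
        rintro k ⟨a, ha, b, hb, hab, rfl⟩
        rcases (hA a b).1 hab with h3 | ⟨rfl, rfl⟩ | ⟨rfl, rfl⟩
        · exact Or.inr ⟨a, ha, b, hb, h3, rfl⟩
        · exact Or.inl rfl
        · exact Or.inl hfu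
      exact (Set.ncard_le_ncard hsub (hfF.insert _)).trans (Set.ncard_insert_le _ _)
    have := h.co
    omega

end

theorem pf_a2 : Y_A2 := by
  rintro n A A' u v hu hv huv hs _ hiso hA ⟨pos, fid, rt, rk, h⟩
  by_cases hvb : ∃ b < n, A v b
  · obtain ⟨b0, hb0, hvb⟩ := hvb
    exact pf_a2_one hu hv huv hs hiso hA h hb0 hvb
  · exact pf_a2_two hu hv huv hs hiso hA h fun b hb hab => hvb ⟨b, hb, hab⟩

end Pool.Agent.H8.PU
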