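import Pool.Agent.H8.PL.All
import Pool.Agent.H8.PU.A2
import Pool.Agent.H42.PU.A1
import Pool.Agent.H69.PU.CH
import Pool.Agent.H64.PU.EM
import Pool.Agent.H49.PU.EQ
import Pool.Agent.H28.PU.EX
import Pool.Agent.H34.PU.LF
import Pool.Agent.H49.PU.P1
import Pool.Agent.H49.PU.P2
import Pool.Agent.H51.PU.PB
import Pool.Agent.H81.PU.PG
import Pool.Agent.H49.PU.SP
import Pool.Agent.H49.PU.SZ
import Pool.Agent.H16.PU.TS
import Pool.Agent.H51.PU.UC

/-!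
# Two-variable logic with counting over planar graphs: all modules put together
-/

set_option autoImplicit false

namespace Pool.Agent.H8.PU

open Pool.Agent Pool.Agent.H8.PL

theorem y_lf : Y_LF := H34.PU.pf_lf H42.PU.pf_a1 pf_a2 pf_q1 pf_q2 H59.PL.pf_IS

theorem y_ch : Y_CH := H69.PU.pf_ch y_lf

theorem y_pg : Y_PG := H81.PU.pf_pg y_ch H64.PU.pf_em

theorem y_uc : Y_UC :=
  H51.PU.pf_UC H16.PU.pf_ts H28.PU.pf_EX H49.PU.pf_eq H49.PU.pf_sz y_pg H59.PL.pf_IS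

theorem y_sp : Y_SP := H49.PU.pf_sp z_sp

theorem y_p1 : Y_P1 := H49.PU.pf_p1 z_p1 y_uc

theorem y_p2 : Y_P2 := H49.PU.pf_p2 y_p1 y_sp H51.PU.pf_PB

end Pool.Agent.H8.PU
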