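import Pool.Agent.H8.PU.Defs
import Pool.Agent.H8.PL.Targets

/-!
# Two-variable logic with counting over planar graphs without colours: targets

The colours of a planar graph are coded by pendant gadgets: every vertex gets `M = 2 ^ b - 1` pairs of
new vertices; a pair is either a pendant path of length two or two pendant vertices. The number of the
paths codes the colours.
-/

set_option autoImplicit false

namespace Pool.Agent.H8.PU

open Pool.Agent.H69.Sp Pool.Agent.H69.Mt Pool.Agent.H16.TO Pool.Agent.H8.PL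

section
variable {V : Type} (G : SimpleGraph V)

/-- the degree -/
noncomputable def dg (x : V) : ℕ := (G.neighborSet x).ncard

/-- the number of the neighbours of degree `k` -/
noncomputable def nb (k : ℕ) (x : V) : ℕ := {y | G.Adj x y ∧ dg G y = k}.ncard

/-- every vertex of degree at least three has `M` pairs of gadget vertices, all other vertices are
gadget vertices -/
structure IsG (M : ℕ) : Prop where
  pos : ∀ x, 1 ≤ dg G x
  leaf : ∀ x, dg G x = 1 → ∀ y, G.Adj x y → 2 ≤ dg G y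
  mid : ∀ x, dg G x = 2 → nb G 1 x = 1 ∧ {y | G.Adj x y ∧ 3 ≤ dg G y}.ncard = 1
  cor : ∀ x, 3 ≤ dg G x → nb G 1 x + 2 * nb G 2 x = 2 * M

/-- only the edges inside `X` -/
def res (X : Set V) : SimpleGraph V where
  Adj a b := G.Adj a b ∧ a ∈ X ∧ b ∈ X
  symm := ⟨fun _ _ h => ⟨h.1.symm, h.2.2, h.2.1⟩⟩
  loopless := ⟨fun _ h => G.loopless.irrefl _ h.1⟩

end

/-! ### A: pendant vertices and planarity -/

/-- a pendant vertex is added to a certified graph -/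
def Y_A1 : Prop := ∀ (n : ℕ) (A A' : ℕ → ℕ → Prop) (u v : ℕ), u < n → v < n → u ≠ v →
  (∀ a b, A a b → A b a) → (∀ a, ¬ A a a) → (∀ b, ¬ A u b) →
  (∀ a b, A' a b ↔ A a b ∨ (a = u ∧ b = v) ∨ (a = v ∧ b = u)) →
  (∃ (pos fid : ℕ → ℕ → ℕ) (rt : ℕ → Prop) (rk : ℕ → ℕ), PlC n A pos fid rt rk) →
    ∃ (pos fid : ℕ → ℕ → ℕ) (rt : ℕ → Prop) (rk : ℕ → ℕ), PlC n A' pos fid rt rk

/-- a pendant vertex is removed from a certified graph -/
def Y_A2 : Prop := ∀ (n : ℕ) (A A' : ℕ → ℕ → Prop) (u v : ℕ), u < n → v < n → u ≠ v →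
  (∀ a b, A a b → A b a) → (∀ a, ¬ A a a) → (∀ b, ¬ A u b) →
  (∀ a b, A' a b ↔ A a b ∨ (a = u ∧ b = v) ∨ (a = v ∧ b = u)) →
  (∃ (pos fid : ℕ → ℕ → ℕ) (rt : ℕ → Prop) (rk : ℕ → ℕ), PlC n A' pos fid rt rk) →
    ∃ (pos fid : ℕ → ℕ → ℕ) (rt : ℕ → Prop) (rk : ℕ → ℕ), PlC n A pos fid rt rk

/-- a pendant vertex does not change planarity -/
def Y_LF : Prop := ∀ (V : Type) [Finite V] (G G' : SimpleGraph V) (u v : V), u ≠ v →
  (∀ b, ¬ G.Adj u b) → (∀ a b, G'.Adj a b ↔ G.Adj a b ∨ (a = u ∧ b = v) ∨ (a = v ∧ b = u)) →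
    (IsPlanar G ↔ IsPlanar G')

/-- attached trees do not change planarity -/
def Y_CH : Prop := ∀ (V : Type) [Finite V] (G : SimpleGraph V) (X : Set V) (rk : V → ℕ),
  (∀ u, u ∉ X → {v | G.Adj u v ∧ (v ∈ X ∨ rk v < rk u)}.ncard = 1) →
  (∀ u, u ∉ X → ∀ w, w ∉ X → G.Adj u w → rk u ≠ rk w) → (IsPlanar (res G X) ↔ IsPlanar G)

/-- planarity is invariant under embeddings which are onto up to isolated vertices -/
def Y_EM : Prop := ∀ (V V' : Type) (f : V → V') (G : SimpleGraph V) (G' : SimpleGraph V'),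
  Function.Injective f → (∀ a b, G.Adj a b ↔ G'.Adj (f a) (f b)) →
  (∀ a b, G'.Adj a b → ∃ c, f c = a) → (IsPlanar G ↔ IsPlanar G')

/-- gadgets do not change planarity -/
def Y_PG : Prop := ∀ (V : Type) [Finite V] (G : SimpleGraph V) (M : ℕ), IsG G M →
  (IsPlanar (G.induce {x | 3 ≤ dg G x}) ↔ IsPlanar G)

/-- the number of the vertices -/
def Y_SZ : Prop := ∀ (V : Type) [Finite V] (G : SimpleGraph V) (M : ℕ), IsG G M →
  Nat.card V = (2 * M + 1) * Nat.card {x // 3 ≤ dg G x}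

/-- the gadgets -/
def Y_EX : Prop := ∀ (N b : ℕ), 2 ≤ b → ∀ (G : SimpleGraph (Fin N)) (c : Fin N → ℕ),
  (∀ x, c x < 2 ^ b) → ∃ (G' : SimpleGraph (Fin ((2 * (2 ^ b - 1) + 1) * N)))
    (e : Fin N ≃ {x // 3 ≤ dg G' x}), IsG G' (2 ^ b - 1) ∧
      (∀ x y, G.Adj x y ↔ G'.Adj (e x).1 (e y).1) ∧ ∀ x, nb G' 2 (e x).1 = c x

/-! ### B: formulas -/

/-- satisfaction is invariant and depends only on the relations below `φ.bd` -/
def Y_EQ : Prop := ∀ (A B : Type) (e : A ≃ B) (P : ℕ → A → Prop) (R : ℕ → A → A → Prop)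
  (P' : ℕ → B → Prop) (R' : ℕ → B → B → Prop) (φ : C2),
  (∀ i < φ.bd, ∀ a, (P i a ↔ P' i (e a))) →
  (∀ i < φ.bd, ∀ a b, (R i a b ↔ R' i (e a) (e b))) →
    ∀ s : Bool → A, (φ.Sat P R s ↔ φ.Sat P' R' (fun w => e (s w)))

/-- the translation -/
def Y_TS : Prop := ∀ (φ : C2) (b : ℕ), φ.bd ≤ b → ∃ φ' : G2, ∀ (V : Type) [Finite V] [Nonempty V]
  (G : SimpleGraph V), (∀ s, φ'.Sat G s) ↔ IsG G (2 ^ b - 1) ∧
    ∀ s : Bool → {x // 3 ≤ dg G x}, φ.Sat (fun i x => (nb G 2 x.1).testBit i = true)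
      (fun _ x y => G.Adj x.1 y.1) s

/-- without colours -/
def Y_UC : Prop := ∀ φ : C2, ∃ (φ' : G2) (M : ℕ), ∀ n, n ∈ specPl φ' ↔
  ∃ m ∈ specP φ, n = (2 * M + 1) * m

/-- the spectra of planar graphs are spectra -/
def Y_SP : Prop := ∀ φ : G2, IsSpectrum (specPl φ)

/-- pull-back -/
def Y_PB : Prop := ∀ X : Set ℕ, IsSpectrum X → ∀ r c : ℕ, 0 < r → 0 < c →
  IsSpectrum {n | 4 ≤ n ∧ c * ((n ^ r - 1) ^ 2 + 1) ∈ X}

/-- the formulas of the spectra -/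
def Y_P1 : Prop := ∀ S, IsSpectrum S → ∃ (φ : G2) (r c : ℕ), 0 < r ∧ 0 < c ∧
  ∀ n, 4 ≤ n → (n ∈ S ↔ c * ((n ^ r - 1) ^ 2 + 1) ∈ specPl φ)

/-- the equivalence -/
def Y_P2 : Prop := (∀ S, IsSpectrum S → IsSpectrum (posCompl S)) ↔
  ∀ φ : G2, IsSpectrum (posCompl (specPl φ))

end Pool.Agent.H8.PU
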