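import Pool.Agent.H8.PL.Defs

/-!
# Two-variable logic with counting over planar graphs
-/

set_option autoImplicit false

namespace Pool.Agent.H8.PU

open Pool.Agent.H8.PL

/-- Formulas of two-variable logic with counting over graphs; the variables are `false` and `true`. -/
inductive G2 : Type
  | adj (v w : Bool) : G2
  | eq (v w : Bool) : G2
  | neg (φ : G2) : G2
  | and (φ ψ : G2) : G2
  | cnt (k : ℕ) (v : Bool) (φ : G2) : G2

/-- Satisfaction in a graph; `cnt k v φ` says that at least `k` values of the variable `v` satisfy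
`φ`. -/
def G2.Sat {V : Type} (G : SimpleGraph V) : G2 → (Bool → V) → Prop
  | .adj v w, s => G.Adj (s v) (s w)
  | .eq v w, s => s v = s w
  | .neg φ, s => ¬ φ.Sat G s
  | .and φ ψ, s => φ.Sat G s ∧ ψ.Sat G s
  | .cnt k v φ, s => k ≤ {a | φ.Sat G (Function.update s v a)}.ncard

/-- The sizes of the finite planar graphs which satisfy `φ` (for all values of the variables). -/
def specPl (φ : G2) : Set ℕ :=
  {n | 0 < n ∧ ∃ G : SimpleGraph (Fin n), IsPlanar G ∧ ∀ s : Bool → Fin n, φ.Sat G s}

end Pool.Agent.H8.PU
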